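import Mathlib
import Pool.Agent.X54.Tree

set_option autoImplicit false

namespace Pool.Agent.Results.MP_2d208d_co.TreeInequality

open SimpleGraph Finset

/-- `D` is a dominating set of `G`. -/
def IsDominating {V : Type} (G : SimpleGraph V) (D : Finset V) : Prop :=
  ∀ v, v ∉ D → ∃ u ∈ D, G.Adj u v

/-- `D` is a weak dominating set of `G`: every vertex `v` outside `D` is adjacent to some `u` in
`D` with `deg u ≤ deg v`. -/
def IsWeakDominating {V : Type} [Fintype V] (G : SimpleGraph V) [DecidableRel G.Adj]
    (D : Finset V) : Prop :=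
  ∀ v, v ∉ D → ∃ u ∈ D, G.Adj u v ∧ G.degree u ≤ G.degree v

/-- The independent domination number `i(G)`. -/
noncomputable def indepDomNumber {V : Type} (G : SimpleGraph V) : ℕ :=
  sInf {k : ℕ | ∃ D : Finset V, IsDominating G D ∧ (∀ u ∈ D, ∀ v ∈ D, ¬ G.Adj u v) ∧ D.card = k}

/-- The weak domination number `γ_W(G)`. -/
noncomputable def weakDomNumber {V : Type} [Fintype V] (G : SimpleGraph V) [DecidableRel G.Adj] :
    ℕ :=
  sInf {k : ℕ | ∃ D : Finset V, IsWeakDominating G D ∧ D.card = k}

/-- Main lemma, by induction along ancestor-closed vertex sets `U` of a rooted tree. -/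
theorem main {V : Type} [DecidableEq V] (G : SimpleGraph V) (r : V) (par : V → V) (dep : V → ℕ)
    (h1 : ∀ v, v ≠ r → G.Adj v (par v) ∧ dep (par v) + 1 = dep v)
    (h2 : ∀ u v, G.Adj u v → (u ≠ r ∧ par u = v) ∨ (v ≠ r ∧ par v = u)) :
    ∀ (n : ℕ) (U D : Finset V), U.card = n → r ∈ U → (∀ u ∈ U, u ≠ r → par u ∈ U) → D ⊆ U →
      (∀ u ∈ U, u ≠ r → u ∉ D → ∃ w ∈ D, G.Adj w u) →
      (∀ u ∈ U, u ≠ r → (∀ w ∈ U, w ≠ r → par w ≠ u) → u ∈ D) →
      (U = {r} → r ∈ D) →
      ∃ I : Finset V, I ⊆ U ∧ (∀ u ∈ I, ∀ v ∈ I, ¬ G.Adj u v) ∧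
        (∀ u ∈ U, u ∉ I → ∃ w ∈ I, G.Adj w u) ∧ I.card ≤ D.card := by
  intro n
  induction n using Nat.strong_induction_on with
  | _ n ih =>
  intro U D hn hr hU hDU hdom hleaf hsing
  by_cases hUr : U = {r}
  · refine ⟨{r}, by rw [hUr], ?_, ?_, ?_⟩
    · intro u hu v hv
      rw [Finset.mem_singleton] at hu hv
      subst hu; subst hv; exact G.irrefl
    · intro u hu hu'
      rw [hUr] at hu
      exact absurd hu hu'
    · rw [Finset.card_singleton]
      exact Finset.card_pos.mpr ⟨r, hsing hUr⟩
  -- a deepest vertex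
  obtain ⟨x, hxU, hxmax⟩ := Finset.exists_max_image U dep ⟨r, hr⟩
  have hxr : x ≠ r := by
    rintro rfl
    apply hUr
    ext u
    rw [Finset.mem_singleton]
    refine ⟨fun hu => ?_, fun hu => hu ▸ hr⟩
    by_contra hne
    have := hxmax u hu
    -- depth of x is positive unless par chain; use depth of par u
    have h3 := (h1 u hne).2
    have h4 : ∀ k u, u ∈ U → dep u = k → dep x ≤ dep u := by
      intro k
      induction k using Nat.strong_induction_on with
      | _ k ihk =>
        intro u hu hk
        by_cases hux : u = x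
        · rw [hux]
        · have h5 := (h1 u hux).2
          have := ihk (dep (par u)) (by omega) (par u) (hU u hu hux) rfl
          omega
    have h6 := h4 _ (par u) (hU u hu hne) rfl
    omega
  set s := par x with hs
  have hsU : s ∈ U := hU x hxU hxr
  set C := U.filter (fun w => w ≠ r ∧ par w = s) with hC
  have memC : ∀ w, w ∈ C ↔ w ∈ U ∧ w ≠ r ∧ par w = s := by
    intro w; rw [hC, Finset.mem_filter]
  have hxC : x ∈ C := (memC x).2 ⟨hxU, hxr, rfl⟩
  have hdepC : ∀ w ∈ C, dep w = dep x := by
    intro w hw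
    obtain ⟨_, hwr, hws⟩ := (memC w).1 hw
    have h3 := (h1 w hwr).2
    have h4 := (h1 x hxr).2
    rw [hws] at h3
    rw [← hs] at h4
    omega
  have nochild : ∀ c ∈ C, ∀ w ∈ U, w ≠ r → par w ≠ c := by
    intro c hc w hw hwr hpw
    have h3 := (h1 w hwr).2
    rw [hpw, hdepC c hc] at h3
    have := hxmax w hw
    omega
  have hCD : C ⊆ D := by
    intro c hc
    exact hleaf c ((memC c).1 hc).1 ((memC c).1 hc).2.1 (nochild c hc)
  have adjC : ∀ c ∈ C, ∀ w ∈ U, (G.Adj c w ∨ G.Adj w c) → w = s := by
    intro c hc w hw h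
    have h' : G.Adj c w := h.elim id (fun h => h.symm)
    rcases h2 c w h' with ⟨_, h3⟩ | ⟨h4, h3⟩
    · rw [← h3]; exact ((memC c).1 hc).2.2
    · exact absurd h3 (nochild c hc w hw h4)
  have adjCs : ∀ c ∈ C, G.Adj c s := by
    intro c hc
    have := (h1 c ((memC c).1 hc).2.1).1
    rwa [((memC c).1 hc).2.2] at this
  have hsC : s ∉ C := fun h => G.irrefl (adjCs s h)
  have hcardC : 1 ≤ C.card := Finset.card_pos.mpr ⟨x, hxC⟩
  by_cases hsr : s = r
  · -- star centred at the root
    have hall : ∀ u ∈ U, u ≠ r → u ∈ C := by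
      intro u hu hur
      refine (memC u).2 ⟨hu, hur, ?_⟩
      by_contra hne
      have h3 := (h1 u hur).2
      have h4 := (h1 x hxr).2
      rw [← hs] at h4
      have h5 := hxmax u hu
      have hp : par u ≠ r := by rw [← hsr]; exact hne
      have h6 := (h1 (par u) hp).2
      -- dep r is minimal
      have h7 : ∀ k u, dep u = k → u ∈ U → dep r ≤ dep u := by
        intro k
        induction k using Nat.strong_induction_on with
        | _ k ihk =>
          intro u hk hu
          by_cases hux : u = r
          · rw [hux]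
          · have h5 := (h1 u hux).2
            have := ihk (dep (par u)) (by omega) (par u) rfl (hU u hu hux)
            omega
      have h8 := h7 _ (par (par u)) rfl (hU _ (hU u hu hur) hp)
      rw [hsr] at h4
      omega
    refine ⟨{r}, Finset.singleton_subset_iff.2 hr, ?_, ?_, ?_⟩
    · intro u hu v hv
      rw [Finset.mem_singleton] at hu hv
      subst hu; subst hv; exact G.irrefl
    · intro u hu hu'
      rw [Finset.mem_singleton] at hu'
      refine ⟨r, Finset.mem_singleton_self r, ?_⟩
      have := adjCs u (hall u hu hu')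
      rw [hsr] at this
      exact this.symm
    · rw [Finset.card_singleton]
      exact hcardC.trans (Finset.card_le_card hCD)
  -- `s` is not the root
  set p := par s with hp
  have hpU : p ∈ U := hU s hsU hsr
  have adjsp : G.Adj s p := (h1 s hsr).1
  set U2 := U \ (insert s C) with hU2
  have memU2 : ∀ u, u ∈ U2 ↔ u ∈ U ∧ u ≠ s ∧ u ∉ C := by
    intro u; rw [hU2, Finset.mem_sdiff, Finset.mem_insert]; tauto
  have hrC : r ∉ C := fun h => ((memC r).1 h).2.1 rfl
  have hpC : p ∉ C := by
    intro h
    exact nochild p h s hsU hsr rfl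
  have hpU2 : p ∈ U2 := (memU2 p).2 ⟨hpU, fun h => G.irrefl (h ▸ adjsp), hpC⟩
  have hrU2 : r ∈ U2 := (memU2 r).2 ⟨hr, fun h => hsr h.symm, hrC⟩
  have hU2cl : ∀ u ∈ U2, u ≠ r → par u ∈ U2 := by
    intro u hu hur
    obtain ⟨hu1, hu2, hu3⟩ := (memU2 u).1 hu
    refine (memU2 _).2 ⟨hU u hu1 hur, ?_, ?_⟩
    · intro h; exact hu3 ((memC u).2 ⟨hu1, hur, h⟩)
    · intro h; exact nochild _ h u hu1 hur rfl
  have hU2card : U2.card < n := by
    rw [← hn]
    refine Finset.card_lt_card ⟨Finset.sdiff_subset, fun h => ?_⟩
    exact ((memU2 s).1 (h hsU)).2.1 rfl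
  -- adjacency of s inside U
  have adjs : ∀ w ∈ U, G.Adj s w → w = p ∨ w ∈ C := by
    intro w hw h
    rcases h2 s w h with ⟨_, h3⟩ | ⟨h4, h3⟩
    · left; rw [← h3]
    · right; exact (memC w).2 ⟨hw, h4, h3⟩
  -- the two ways of extending
  have ext1 : ∀ (I2 : Finset V), I2 ⊆ U2 → (∀ u ∈ I2, ∀ v ∈ I2, ¬ G.Adj u v) →
      (∀ u ∈ U2, u ∉ I2 → ∃ w ∈ I2, G.Adj w u) →
      ∃ I : Finset V, I ⊆ U ∧ (∀ u ∈ I, ∀ v ∈ I, ¬ G.Adj u v) ∧
        (∀ u ∈ U, u ∉ I → ∃ w ∈ I, G.Adj w u) ∧ I.card ≤ I2.card + C.card := by
    intro I2 hI2 hind hd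
    by_cases hpI : p ∈ I2
    · refine ⟨I2 ∪ C, ?_, ?_, ?_, Finset.card_union_le _ _⟩
      · intro u hu
        rcases Finset.mem_union.1 hu with h | h
        · exact ((memU2 u).1 (hI2 h)).1
        · exact ((memC u).1 h).1
      · intro u hu v hv hadj
        rcases Finset.mem_union.1 hu with h | h
        · rcases Finset.mem_union.1 hv with h' | h'
          · exact hind u h v h' hadj
          · exact ((memU2 u).1 (hI2 h)).2.1 (adjC v h' u ((memU2 u).1 (hI2 h)).1 (Or.inr hadj))
        · have hvU : v ∈ U := by
            rcases Finset.mem_union.1 hv with h' | h'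
            · exact ((memU2 v).1 (hI2 h')).1
            · exact ((memC v).1 h').1
          have := adjC u h v hvU (Or.inl hadj)
          subst this
          rcases Finset.mem_union.1 hv with h' | h'
          · exact ((memU2 _).1 (hI2 h')).2.1 rfl
          · exact hsC h'
      · intro u hu hu'
        by_cases hus : u = s
        · exact ⟨p, Finset.mem_union_left _ hpI, by rw [hus]; exact adjsp.symm⟩
        · by_cases huC : u ∈ C
          · exact absurd (Finset.mem_union_right _ huC) hu'
          · obtain ⟨w, hw, hw2⟩ := hd u ((memU2 u).2 ⟨hu, hus, huC⟩)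
              (fun h => hu' (Finset.mem_union_left _ h))
            exact ⟨w, Finset.mem_union_left _ hw, hw2⟩
    · refine ⟨insert s I2, ?_, ?_, ?_, ?_⟩
      · intro u hu
        rcases Finset.mem_insert.1 hu with h | h
        · rw [h]; exact hsU
        · exact ((memU2 u).1 (hI2 h)).1
      · intro u hu v hv hadj
        rcases Finset.mem_insert.1 hu with h | h
        · subst h
          rcases Finset.mem_insert.1 hv with h' | h'
          · subst h'; exact G.irrefl hadj
          · rcases adjs v ((memU2 v).1 (hI2 h')).1 hadj with h3 | h3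
            · exact hpI (h3 ▸ h')
            · exact ((memU2 v).1 (hI2 h')).2.2 h3
        · rcases Finset.mem_insert.1 hv with h' | h'
          · subst h'
            rcases adjs u ((memU2 u).1 (hI2 h)).1 hadj.symm with h3 | h3
            · exact hpI (h3 ▸ h)
            · exact ((memU2 u).1 (hI2 h)).2.2 h3
          · exact hind u h v h' hadj
      · intro u hu hu'
        have hus : u ≠ s := fun h => hu' (h ▸ Finset.mem_insert_self _ _)
        by_cases huC : u ∈ C
        · exact ⟨s, Finset.mem_insert_self _ _, (adjCs u huC).symm⟩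
        · obtain ⟨w, hw, hw2⟩ := hd u ((memU2 u).2 ⟨hu, hus, huC⟩)
            (fun h => hu' (Finset.mem_insert_of_mem h))
          exact ⟨w, Finset.mem_insert_of_mem hw, hw2⟩
      · exact (Finset.card_insert_le _ _).trans (by omega)
  have hDsplit : (D ∩ U2).card + C.card ≤ D.card ∧
      (s ∈ D → (D ∩ U2).card + C.card + 1 ≤ D.card) := by
    have hdisj : Disjoint (D ∩ U2) C := by
      rw [Finset.disjoint_left]
      intro u hu hu'
      exact ((memU2 u).1 (Finset.mem_inter.1 hu).2).2.2 hu'
    constructor
    · rw [← Finset.card_union_of_disjoint hdisj]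
      exact Finset.card_le_card (Finset.union_subset Finset.inter_subset_left hCD)
    · intro hsD
      rw [← Finset.card_union_of_disjoint hdisj]
      have hs' : s ∉ (D ∩ U2) ∪ C := by
        intro h
        rcases Finset.mem_union.1 h with h | h
        · exact ((memU2 s).1 (Finset.mem_inter.1 h).2).2.1 rfl
        · exact hsC h
      rw [← Finset.card_insert_of_notMem hs']
      refine Finset.card_le_card (Finset.insert_subset hsD ?_)
      exact Finset.union_subset Finset.inter_subset_left hCD
  by_cases hsD : s ∈ D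
  · -- put `p` in
    obtain ⟨I2, hI2, hind, hd, hc⟩ := ih U2.card hU2card U2 (insert p (D ∩ U2)) rfl hrU2 hU2cl
      (Finset.insert_subset hpU2 Finset.inter_subset_right) (by
        intro u hu hur hu'
        have hup : u ≠ p := fun h => hu' (h ▸ Finset.mem_insert_self _ _)
        have huD : u ∉ D := fun h =>
          hu' (Finset.mem_insert_of_mem (Finset.mem_inter.2 ⟨h, hu⟩))
        obtain ⟨hu1, hu2, hu3⟩ := (memU2 u).1 hu
        obtain ⟨w, hw, hw2⟩ := hdom u hu1 hur huD
        have hwU := hDU hw
        refine ⟨w, Finset.mem_insert_of_mem (Finset.mem_inter.2 ⟨hw, (memU2 w).2 ⟨hwU, ?_, ?_⟩⟩),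
          hw2⟩
        · rintro rfl
          rcases adjs u hu1 hw2 with h | h
          · exact hup h
          · exact hu3 h
        · intro hwC
          exact hu2 (adjC w hwC u hu1 (Or.inl hw2))) (by
        intro u hu hur hl
        by_cases hup : u = p
        · rw [hup]; exact Finset.mem_insert_self _ _
        obtain ⟨hu1, hu2, hu3⟩ := (memU2 u).1 hu
        refine Finset.mem_insert_of_mem (Finset.mem_inter.2 ⟨hleaf u hu1 hur ?_, hu⟩)
        intro w hw hwr hpw
        by_cases hwC : w ∈ C
        · exact hu2 (hpw ▸ ((memC w).1 hwC).2.2)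
        by_cases hws : w = s
        · exact hup (by rw [← hpw, hws])
        exact hl w ((memU2 w).2 ⟨hw, hws, hwC⟩) hwr hpw) (by
        intro h
        rw [h, Finset.mem_singleton] at hpU2
        rw [← hpU2]; exact Finset.mem_insert_self _ _)
    obtain ⟨I, hI1, hI2', hI3, hI4⟩ := ext1 I2 hI2 hind hd
    refine ⟨I, hI1, hI2', hI3, ?_⟩
    have := Finset.card_insert_le p (D ∩ U2)
    have := hDsplit.2 hsD
    omega
  · -- `s ∉ D`
    by_cases hbad : p ≠ r ∧ p ∉ D ∧ ∀ w ∈ U2, w ≠ r → par w ≠ p
    · obtain ⟨hpr, hpD, hpl⟩ := hbad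
      set q := par p with hq
      have hqU2 : q ∈ U2 := hU2cl p hpU2 hpr
      have hadjpq := (h1 p hpr).1
      have hqD : q ∈ D := by
        obtain ⟨w, hw, hw2⟩ := hdom p hpU hpr hpD
        rcases h2 w p hw2 with ⟨h3, h4⟩ | ⟨_, h4⟩
        · exfalso
          have hwU := hDU hw
          have hws : w ≠ s := fun h => hsD (h ▸ hw)
          have hwC : w ∉ C := by
            intro h
            have := ((memC w).1 h).2.2
            rw [h4] at this
            exact G.irrefl (this ▸ adjsp)
          exact hpl w ((memU2 w).2 ⟨hwU, hws, hwC⟩) h3 h4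
        · rw [hq, h4]; exact hw
      set U3 := U2.erase p with hU3
      have memU3 : ∀ u, u ∈ U3 ↔ u ≠ p ∧ u ∈ U2 := by
        intro u; rw [hU3, Finset.mem_erase]
      have hqp : q ≠ p := by
        intro h
        rw [← hq, h] at hadjpq
        exact G.irrefl hadjpq
      obtain ⟨I3, hI3, hind, hd, hc⟩ := ih U3.card
        ((Finset.card_lt_card (Finset.erase_ssubset hpU2)).trans hU2card) U3 (D ∩ U3) rfl
        ((memU3 r).2 ⟨fun h => hpr h.symm, hrU2⟩) (by
          intro u hu hur
          obtain ⟨hu1, hu2⟩ := (memU3 u).1 hu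
          exact (memU3 _).2 ⟨hpl u hu2 hur, hU2cl u hu2 hur⟩) Finset.inter_subset_right (by
          intro u hu hur hu'
          have huD : u ∉ D := fun h => hu' (Finset.mem_inter.2 ⟨h, hu⟩)
          obtain ⟨hup, hu2⟩ := (memU3 u).1 hu
          obtain ⟨hu1, hus, huC⟩ := (memU2 u).1 hu2
          obtain ⟨w, hw, hw2⟩ := hdom u hu1 hur huD
          have hwU := hDU hw
          refine ⟨w, Finset.mem_inter.2 ⟨hw, (memU3 w).2 ⟨fun h => hpD (h ▸ hw),
            (memU2 w).2 ⟨hwU, fun h => hsD (h ▸ hw), ?_⟩⟩⟩, hw2⟩
          intro hwC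
          exact hus (adjC w hwC u hu1 (Or.inl hw2))) (by
          intro u hu hur hl
          by_cases huq : u = q
          · rw [huq]; exact Finset.mem_inter.2 ⟨hqD, (memU3 q).2 ⟨hqp, hqU2⟩⟩
          obtain ⟨hup, hu2⟩ := (memU3 u).1 hu
          obtain ⟨hu1, hus, huC⟩ := (memU2 u).1 hu2
          refine Finset.mem_inter.2 ⟨hleaf u hu1 hur ?_, hu⟩
          intro w hw hwr hpw
          by_cases hwC : w ∈ C
          · exact hus (hpw ▸ ((memC w).1 hwC).2.2)
          by_cases hws : w = s
          · exact hup (by rw [← hpw, hws])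
          by_cases hwp : w = p
          · exact huq (by rw [← hpw, hwp])
          exact hl w ((memU3 w).2 ⟨hwp, (memU2 w).2 ⟨hw, hws, hwC⟩⟩) hwr hpw) (by
          intro h
          have hq3 : q ∈ U3 := (memU3 q).2 ⟨hqp, hqU2⟩
          have hqr : q = r := by rw [h, Finset.mem_singleton] at hq3; exact hq3
          rw [← hqr]
          exact Finset.mem_inter.2 ⟨hqD, hq3⟩)
      refine ⟨insert s I3, ?_, ?_, ?_, ?_⟩
      · intro u hu
        rcases Finset.mem_insert.1 hu with h | h
        · rw [h]; exact hsU
        · exact ((memU2 u).1 ((memU3 u).1 (hI3 h)).2).1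
      · intro u hu v hv hadj
        rcases Finset.mem_insert.1 hu with h | h
        · subst h
          rcases Finset.mem_insert.1 hv with h' | h'
          · subst h'; exact G.irrefl hadj
          · obtain ⟨hvp, hv2⟩ := (memU3 v).1 (hI3 h')
            rcases adjs v ((memU2 v).1 hv2).1 hadj with h3 | h3
            · exact hvp h3
            · exact ((memU2 v).1 hv2).2.2 h3
        · rcases Finset.mem_insert.1 hv with h' | h'
          · subst h'
            obtain ⟨hup, hu2⟩ := (memU3 u).1 (hI3 h)
            rcases adjs u ((memU2 u).1 hu2).1 hadj.symm with h3 | h3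
            · exact hup h3
            · exact ((memU2 u).1 hu2).2.2 h3
          · exact hind u h v h' hadj
      · intro u hu hu'
        have hus : u ≠ s := fun h => hu' (h ▸ Finset.mem_insert_self _ _)
        by_cases huC : u ∈ C
        · exact ⟨s, Finset.mem_insert_self _ _, (adjCs u huC).symm⟩
        by_cases hup : u = p
        · exact ⟨s, Finset.mem_insert_self _ _, by rw [hup]; exact adjsp⟩
        · obtain ⟨w, hw, hw2⟩ := hd u ((memU3 u).2 ⟨hup, (memU2 u).2 ⟨hu, hus, huC⟩⟩)
            (fun h => hu' (Finset.mem_insert_of_mem h))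
          exact ⟨w, Finset.mem_insert_of_mem hw, hw2⟩
      · have e1 := Finset.card_insert_le s I3
        have e2 : (D ∩ U3).card ≤ (D ∩ U2).card :=
          Finset.card_le_card (Finset.inter_subset_inter_left (Finset.erase_subset _ _))
        have e3 := hDsplit.1
        omega
    · by_cases hroot : U2 = {r} ∧ r ∉ D
      · -- `U = {r, s} ∪ C`
        obtain ⟨hU2r, hrD⟩ := hroot
        have hpr : p = r := by rw [hU2r, Finset.mem_singleton] at hpU2; exact hpU2
        refine ⟨{s}, Finset.singleton_subset_iff.2 hsU, ?_, ?_, ?_⟩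
        · intro u hu v hv
          rw [Finset.mem_singleton] at hu hv
          subst hu; subst hv; exact G.irrefl
        · intro u hu hu'
          rw [Finset.mem_singleton] at hu'
          refine ⟨s, Finset.mem_singleton_self s, ?_⟩
          by_cases huC : u ∈ C
          · exact (adjCs u huC).symm
          · have : u ∈ U2 := (memU2 u).2 ⟨hu, hu', huC⟩
            rw [hU2r, Finset.mem_singleton] at this
            rw [this, ← hpr]; exact adjsp
        · rw [Finset.card_singleton]
          exact hcardC.trans (Finset.card_le_card hCD)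
      · obtain ⟨I2, hI2, hind, hd, hc⟩ := ih U2.card hU2card U2 (D ∩ U2) rfl hrU2 hU2cl
          Finset.inter_subset_right (by
            intro u hu hur hu'
            have huD : u ∉ D := fun h => hu' (Finset.mem_inter.2 ⟨h, hu⟩)
            obtain ⟨hu1, hu2, hu3⟩ := (memU2 u).1 hu
            obtain ⟨w, hw, hw2⟩ := hdom u hu1 hur huD
            have hwU := hDU hw
            refine ⟨w, Finset.mem_inter.2 ⟨hw, (memU2 w).2 ⟨hwU, fun h => hsD (h ▸ hw), ?_⟩⟩, hw2⟩
            intro hwC
            exact hu2 (adjC w hwC u hu1 (Or.inl hw2))) (by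
            intro u hu hur hl
            obtain ⟨hu1, hu2, hu3⟩ := (memU2 u).1 hu
            refine Finset.mem_inter.2 ⟨?_, hu⟩
            by_cases hup : u = p
            · by_contra hne
              rw [hup] at hl hur hne
              exact hbad ⟨hur, hne, hl⟩
            refine hleaf u hu1 hur ?_
            intro w hw hwr hpw
            by_cases hwC : w ∈ C
            · exact hu2 (hpw ▸ ((memC w).1 hwC).2.2)
            by_cases hws : w = s
            · exact hup (by rw [← hpw, hws])
            exact hl w ((memU2 w).2 ⟨hw, hws, hwC⟩) hwr hpw) (by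
            intro h
            refine Finset.mem_inter.2 ⟨?_, hrU2⟩
            by_contra hrD
            exact hroot ⟨h, hrD⟩)
        obtain ⟨I, hI1, hI2', hI3, hI4⟩ := ext1 I2 hI2 hind hd
        refine ⟨I, hI1, hI2', hI3, ?_⟩
        have := hDsplit.1
        omega

/-- For every tree `T` (here: `G` on the finite vertex type `V`), `i(T) ≤ γ_W(T)`; moreover
`i(T) ≤ |D|` for every dominating set `D` of `T` containing all vertices of degree one, and every
weak dominating set of a tree with at least three vertices is of this kind. -/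
theorem result (V : Type) [Fintype V] [DecidableEq V] (G : SimpleGraph V) [DecidableRel G.Adj]
    (hG : G.IsTree) :
    indepDomNumber G ≤ weakDomNumber G ∧
      ∀ D : Finset V, IsDominating G D → (∀ v, G.degree v ≤ 1 → v ∈ D) →
        indepDomNumber G ≤ D.card := by
  have hV : Nonempty V := hG.connected.nonempty
  obtain ⟨r⟩ := hV
  -- second part
  have part2 : ∀ D : Finset V, IsDominating G D → (∀ v, G.degree v ≤ 1 → v ∈ D) →
      indepDomNumber G ≤ D.card := by
    intro D hD hL
    obtain ⟨par, h1, h2⟩ := Pool.Agent.X54.Tree.exists_parent G hG r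
    obtain ⟨I, _, hind, hd, hc⟩ := main G r par (G.dist r) h1 h2 _ Finset.univ D rfl
      (Finset.mem_univ r) (fun u _ _ => Finset.mem_univ _) (Finset.subset_univ _)
      (fun u _ _ hu => hD u hu) (by
        intro u _ hur hl
        apply hL
        rw [← SimpleGraph.card_neighborFinset_eq_degree, Finset.card_le_one]
        have : ∀ a ∈ G.neighborFinset u, a = par u := by
          intro a ha
          rw [SimpleGraph.mem_neighborFinset] at ha
          rcases h2 u a ha with ⟨_, h⟩ | ⟨h3, h⟩
          · exact h.symm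
          · exact absurd h (hl a (Finset.mem_univ a) h3)
        intro a ha b hb
        rw [this a ha, this b hb]) (by
        intro h
        apply hL
        rw [← SimpleGraph.card_neighborFinset_eq_degree, Finset.card_le_one]
        intro a ha b hb
        have ha' : a ∈ ({r} : Finset V) := h ▸ Finset.mem_univ a
        have hb' : b ∈ ({r} : Finset V) := h ▸ Finset.mem_univ b
        rw [Finset.mem_singleton.1 ha', Finset.mem_singleton.1 hb'])
    refine le_trans (Nat.sInf_le ⟨I, ?_, hind, rfl⟩) hc
    intro v hv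
    exact hd v (Finset.mem_univ v) hv
  refine ⟨?_, part2⟩
  -- a minimum weak dominating set
  have hne : {k : ℕ | ∃ D : Finset V, IsWeakDominating G D ∧ D.card = k}.Nonempty :=
    ⟨_, Finset.univ, fun v hv => absurd (Finset.mem_univ v) hv, rfl⟩
  obtain ⟨D, hD, hDc⟩ := Nat.sInf_mem hne
  unfold weakDomNumber
  rw [← hDc]
  have hdomD : IsDominating G D := fun v hv => by
    obtain ⟨u, hu, hu2, _⟩ := hD v hv
    exact ⟨u, hu, hu2⟩
  by_cases hL : ∀ v, G.degree v ≤ 1 → v ∈ D
  · exact part2 D hdomD hL
  · push Not at hL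
    obtain ⟨v, hv1, hvD⟩ := hL
    obtain ⟨u, huD, hadj, hdeg⟩ := hD v hvD
    -- u and v have degree one, so V = {u, v}
    have hu1 : G.degree u ≤ 1 := hdeg.trans hv1
    have hNu : ∀ a, G.Adj u a → a = v := by
      intro a ha
      rw [← SimpleGraph.card_neighborFinset_eq_degree, Finset.card_le_one] at hu1
      exact hu1 a (by simpa using ha) v (by simpa using hadj)
    have hNv : ∀ a, G.Adj v a → a = u := by
      intro a ha
      rw [← SimpleGraph.card_neighborFinset_eq_degree, Finset.card_le_one] at hv1
      exact hv1 a (by simpa using ha) u (by simpa using hadj.symm)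
    have hall : ∀ a, a = u ∨ a = v := by
      intro a
      obtain ⟨w⟩ := hG.connected u a
      have hw : ∀ b c, G.Walk b c → (b = u ∨ b = v) → (c = u ∨ c = v) := by
        intro b c w
        induction w with
        | nil => exact id
        | cons h _ ih =>
          intro hb
          apply ih
          rcases hb with hb | hb
          · subst hb; right; exact hNu _ h
          · subst hb; left; exact hNv _ h
      exact hw u a w (Or.inl rfl)
    refine le_trans (Nat.sInf_le ⟨{u}, ?_, ?_, Finset.card_singleton u⟩)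
      (Finset.card_pos.mpr ⟨u, huD⟩)
    · intro a ha
      rw [Finset.mem_singleton] at ha
      rcases hall a with h | h
      · exact absurd h ha
      · exact ⟨u, Finset.mem_singleton_self u, h ▸ hadj⟩
    · intro a ha b hb
      rw [Finset.mem_singleton] at ha hb
      subst ha; subst hb; exact G.irrefl

end Pool.Agent.Results.MP_2d208d_co.TreeInequality
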